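import Mathlib

/-!
# The tipsy cop and robber game
-/

open Filter Topology

namespace Q294.Tipsy

variable {V : Type} (G : SimpleGraph V)

/-- cop strategies: `c_s(u,v) ∈ {u} ∪ N(u)` -/
def IsCop (σ : ℕ → V → V → V) : Prop := ∀ s u v, σ s u v = u ∨ G.Adj u (σ s u v)

/-- robber strategies: `r_s(u,v) ∈ N(v)` -/
def IsRobber (ρ : ℕ → V → V → V) : Prop := ∀ s u v, G.Adj v (ρ s u v)

/-- monotone cop strategies: sober moves never increase the distance to the robber -/
def IsMonotone (σ : ℕ → V → V → V) : Prop := ∀ s u v, G.dist (σ s u v) v ≤ G.dist u v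

variable [DecidableEq V] [G.LocallyFinite]

/-- mean of `f` over the neighbours of `x` -/
noncomputable def nbrAvg (x : V) (f : V → ℝ) : ℝ := (∑ y ∈ G.neighborFinset x, f y) / G.degree x

/-- `surv n s u v` is the probability that the cop has not won in the next `n` steps, given that
`(C_s, R_s) = (u, v)`: one conditions on the first of these steps, which is a sober cop move, a
sober robber move, a random cop move or a random robber move with probabilities `c, r, tc, tr`. -/
noncomputable def surv (c r tc tr : ℝ) (σ ρ : ℕ → V → V → V) : ℕ → ℕ → V → V → ℝ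
  | 0, _, u, v => if u = v then 0 else 1
  | n + 1, s, u, v => if u = v then 0 else
      c * surv c r tc tr σ ρ n (s + 1) (σ s u v) v +
      r * surv c r tc tr σ ρ n (s + 1) u (ρ s u v) +
      tc * nbrAvg G u (fun u' => surv c r tc tr σ ρ n (s + 1) u' v) +
      tr * nbrAvg G v (fun v' => surv c r tc tr σ ρ n (s + 1) u v')

/-- The cop strategy `σ` is winning from `(C₀, R₀)`: against every robber strategy the cop wins
almost surely. -/
def IsWinning (c r tc tr : ℝ) (C₀ R₀ : V) (σ : ℕ → V → V → V) : Prop :=
  ∀ ρ : ℕ → V → V → V, IsRobber G ρ →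
    Tendsto (fun n => surv G c r tc tr σ ρ n 0 C₀ R₀) atTop (𝓝 0)

end Q294.Tipsy
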