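import Pool.Agent.Q294.Tipsy.Defs

/-!
# The integers with additional edges between consecutive multiples of five
-/

open Filter Topology

namespace Q294.Tipsy

/-- consecutive integers and consecutive multiples of five are adjacent -/
def Gr : SimpleGraph ℤ where
  Adj m n := (n = m + 1 ∨ m = n + 1) ∨ (5 ∣ m ∧ (n = m + 5 ∨ m = n + 5))
  symm := ⟨fun m n h => by
    rcases h with (h | h) | ⟨h, h' | h'⟩
    · exact Or.inl (Or.inr h)
    · exact Or.inl (Or.inl h)
    · exact Or.inr ⟨by omega, Or.inr h'⟩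
    · exact Or.inr ⟨by omega, Or.inl h'⟩⟩
  loopless := ⟨fun m h => by
    rcases h with (h | h) | ⟨h, h' | h'⟩ <;> omega⟩

lemma adj_iff {m n : ℤ} :
    Gr.Adj m n ↔ (n = m + 1 ∨ m = n + 1) ∨ (5 ∣ m ∧ (n = m + 5 ∨ m = n + 5)) := Iff.rfl

/-- neighbours -/
def nbs (m : ℤ) : Finset ℤ :=
  if 5 ∣ m then {m - 5, m - 1, m + 1, m + 5} else {m - 1, m + 1}

lemma mem_nbs {m n : ℤ} : n ∈ nbs m ↔ Gr.Adj m n := by
  rw [adj_iff]
  unfold nbs
  split_ifs with h
  · simp only [Finset.mem_insert, Finset.mem_singleton]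
    constructor
    · rintro (h | h | h | h) <;> omega
    · rintro ((h | h) | ⟨_, h | h⟩) <;> omega
  · simp only [Finset.mem_insert, Finset.mem_singleton]
    constructor
    · rintro (h | h) <;> omega
    · rintro ((h | h) | ⟨_, h | h⟩) <;> omega

instance : Gr.LocallyFinite := fun m =>
  Fintype.ofFinset (nbs m) (fun n => by
    rw [mem_nbs]; rfl)

lemma neighborFinset_eq (m : ℤ) : Gr.neighborFinset m = nbs m := by
  ext n
  rw [SimpleGraph.mem_neighborFinset, mem_nbs]

/-- explicit averages -/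
noncomputable def av (m : ℤ) (f : ℤ → ℝ) : ℝ :=
  if 5 ∣ m then (f (m - 5) + f (m - 1) + f (m + 1) + f (m + 5)) / 4
  else (f (m - 1) + f (m + 1)) / 2

lemma nbrAvg_eq (m : ℤ) (f : ℤ → ℝ) : nbrAvg Gr m f = av m f := by
  unfold nbrAvg av
  rw [← SimpleGraph.card_neighborFinset_eq_degree, neighborFinset_eq]
  unfold nbs
  split_ifs with h
  · have h1 : m - 5 ∉ ({m - 1, m + 1, m + 5} : Finset ℤ) := by simp; omega
    have h2 : m - 1 ∉ ({m + 1, m + 5} : Finset ℤ) := by simp; omega
    have h3 : m + 1 ∉ ({m + 5} : Finset ℤ) := by simp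
    rw [Finset.sum_insert h1, Finset.sum_insert h2, Finset.sum_insert h3, Finset.sum_singleton,
      Finset.card_insert_of_notMem h1, Finset.card_insert_of_notMem h2,
      Finset.card_insert_of_notMem h3, Finset.card_singleton]
    norm_num
    ring
  · have h1 : m - 1 ∉ ({m + 1} : Finset ℤ) := by simp; omega
    rw [Finset.sum_insert h1, Finset.sum_singleton, Finset.card_insert_of_notMem h1,
      Finset.card_singleton]
    norm_num

lemma av_mono {m : ℤ} {f g : ℤ → ℝ} (h : ∀ n, Gr.Adj m n → f n ≤ g n) : av m f ≤ av m g := by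
  rw [← nbrAvg_eq, ← nbrAvg_eq]
  unfold nbrAvg
  refine div_le_div_of_nonneg_right ?_ (Nat.cast_nonneg _)
  exact Finset.sum_le_sum fun n hn => h n (by simpa using hn)

lemma av_const (m : ℤ) (a : ℝ) : av m (fun _ => a) = a := by
  unfold av; split_ifs <;> ring

lemma av_add (m : ℤ) (f g : ℤ → ℝ) : av m (fun n => f n + g n) = av m f + av m g := by
  unfold av; split_ifs <;> ring

lemma av_mul (m : ℤ) (a : ℝ) (f : ℤ → ℝ) : av m (fun n => a * f n) = a * av m f := by
  unfold av; split_ifs <;> ring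

lemma av_neg (m : ℤ) (f : ℤ → ℝ) : av (-m) f = av m (fun n => f (-n)) := by
  unfold av
  have h : (5 ∣ -m) ↔ 5 ∣ m := by rw [dvd_neg]
  simp only [h]
  split_ifs
  · rw [show -(m - 5) = -m + 5 by ring, show -(m - 1) = -m + 1 by ring,
      show -(m + 1) = -m - 1 by ring, show -(m + 5) = -m - 5 by ring]
    ring
  · rw [show -(m - 1) = -m + 1 by ring, show -(m + 1) = -m - 1 by ring]
    ring

lemma adj_succ (m : ℤ) : Gr.Adj m (m + 1) := Or.inl (Or.inl rfl)

lemma adj_pred (m : ℤ) : Gr.Adj m (m - 1) := Or.inl (Or.inr (by ring))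

lemma adj_neg {m n : ℤ} (h : Gr.Adj m n) : Gr.Adj (-m) (-n) := by
  rw [adj_iff] at *
  rcases h with (h | h) | ⟨h, h' | h'⟩ <;> omega

lemma connected_Gr : Gr.Connected := by
  have h0 : ∀ n : ℕ, ∀ m : ℤ, Gr.Reachable m (m + n) := by
    intro n
    induction n with
    | zero => intro m; simp
    | succ n ih =>
      intro m
      refine (ih m).trans ?_
      have := (adj_succ (m + n)).reachable
      push_cast
      rwa [← add_assoc]
  refine ⟨?_⟩
  intro m n
  rcases le_total m n with h | h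
  · have := h0 (n - m).toNat m
    rwa [show m + ((n - m).toNat : ℤ) = n by omega] at this
  · have := h0 (m - n).toNat n
    rw [show n + ((m - n).toNat : ℤ) = m by omega] at this
    exact this.symm

/-! ### distances -/

/-- lower bound for the distance to the origin on the left -/
def dd (u : ℤ) : ℤ :=
  - (u / 5) + (if u % 5 = 1 then 1 else if u % 5 = 2 then 2 else if u % 5 = 3 then 1 else 0)

lemma dd_lip {u w : ℤ} (h : Gr.Adj u w) : dd u - dd w ≤ 1 := by
  rw [adj_iff] at h
  unfold dd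
  rcases h with (h | h) | ⟨h, h' | h'⟩ <;> split_ifs <;> omega

lemma dd_le_dist (u w : ℤ) : dd u - dd w ≤ Gr.dist u w := by
  obtain ⟨p, hp⟩ := connected_Gr.exists_walk_length_eq_dist u w
  rw [← hp]
  clear hp
  induction p with
  | nil => simp
  | cons h p ih =>
    rw [SimpleGraph.Walk.length_cons]
    have := dd_lip h
    push_cast
    linarith

lemma dist_mul_five (k : ℤ) (n : ℕ) : Gr.dist (5 * k) (5 * (k + n)) ≤ n := by
  induction n with
  | zero => simp
  | succ n ih =>
    have h1 : Gr.Adj (5 * (k + n)) (5 * (k + (n + 1 : ℕ))) := by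
      refine Or.inr ⟨⟨_, rfl⟩, Or.inl (by push_cast; ring)⟩
    have h2 := connected_Gr.dist_triangle (u := 5 * k) (v := 5 * (k + n))
      (w := 5 * (k + (n + 1 : ℕ)))
    rw [SimpleGraph.dist_eq_one_iff_adj.mpr h1] at h2
    omega

/-- a monotone cop at `5k+1` does not move to `5k+2` if the robber is at `5m`, `k < m` -/
lemma mono_ne {k m : ℤ} (hkm : k < m) {w : ℤ} (hw : Gr.dist w (5 * m) ≤ Gr.dist (5 * k + 1) (5 * m)) :
    w ≠ 5 * k + 2 := by
  rintro rfl
  have h1 := dd_le_dist (5 * k + 2) (5 * m)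
  have h2 : Gr.dist (5 * k + 1) (5 * m) ≤ 1 + (m - k).toNat := by
    have h3 := connected_Gr.dist_triangle (u := 5 * k + 1) (v := 5 * k) (w := 5 * m)
    have h4 := dist_mul_five k (m - k).toNat
    rw [show k + ((m - k).toNat : ℤ) = m by omega] at h4
    have h5 : Gr.Adj (5 * k + 1) (5 * k) := (adj_succ (5 * k)).symm
    rw [SimpleGraph.dist_eq_one_iff_adj.mpr h5] at h3
    omega
  have h3 : dd (5 * k + 2) - dd (5 * m) = m - k + 2 := by
    unfold dd
    split_ifs <;> omega
  omega

end Q294.Tipsy
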