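import Pool.Agent.Q294.Tipsy.Win

/-!
# Monotone cop strategies lose
-/

open Filter Topology

namespace Q294.Tipsy

/-- the potential of monotone cops -/
noncomputable def GG (u : ℤ) : ℝ :=
  ((u / 5 : ℤ) : ℝ) + (if u % 5 = 0 then 0 else if u % 5 = 1 then 21 / 400 else
    if u % 5 = 2 then 86 / 400 else if u % 5 = 3 then 173 / 400 else 279 / 400)

lemma GG_0 (k : ℤ) : GG (5 * k) = k := by
  unfold GG
  rw [show (5 * k) / 5 = k by omega, show (5 * k) % 5 = 0 by omega]
  norm_num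

lemma GG_1 (k : ℤ) : GG (5 * k + 1) = k + 21 / 400 := by
  unfold GG
  rw [show (5 * k + 1) / 5 = k by omega, show (5 * k + 1) % 5 = 1 by omega]
  norm_num

lemma GG_2 (k : ℤ) : GG (5 * k + 2) = k + 86 / 400 := by
  unfold GG
  rw [show (5 * k + 2) / 5 = k by omega, show (5 * k + 2) % 5 = 2 by omega]
  norm_num

lemma GG_3 (k : ℤ) : GG (5 * k + 3) = k + 173 / 400 := by
  unfold GG
  rw [show (5 * k + 3) / 5 = k by omega, show (5 * k + 3) % 5 = 3 by omega]
  norm_num

lemma GG_4 (k : ℤ) : GG (5 * k + 4) = k + 279 / 400 := by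
  unfold GG
  rw [show (5 * k + 4) / 5 = k by omega, show (5 * k + 4) % 5 = 4 by omega]
  norm_num

lemma adj_0 {k w : ℤ} (h : Gr.Adj (5 * k) w) :
    w = 5 * (k - 1) ∨ w = 5 * (k - 1) + 4 ∨ w = 5 * k + 1 ∨ w = 5 * (k + 1) := by
  rw [adj_iff] at h; omega

lemma adj_1 {k w : ℤ} (h : Gr.Adj (5 * k + 1) w) : w = 5 * k ∨ w = 5 * k + 2 := by
  rw [adj_iff] at h; omega

lemma adj_2 {k w : ℤ} (h : Gr.Adj (5 * k + 2) w) : w = 5 * k + 1 ∨ w = 5 * k + 3 := by
  rw [adj_iff] at h; omega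

lemma adj_3 {k w : ℤ} (h : Gr.Adj (5 * k + 3) w) : w = 5 * k + 2 ∨ w = 5 * k + 4 := by
  rw [adj_iff] at h; omega

lemma adj_4 {k w : ℤ} (h : Gr.Adj (5 * k + 4) w) : w = 5 * k + 3 ∨ w = 5 * (k + 1) := by
  rw [adj_iff] at h; omega

lemma GG_lip {u w : ℤ} (h : Gr.Adj u w) : |GG w - GG u| ≤ 1 := by
  rw [abs_le]
  obtain ⟨k, rfl | rfl | rfl | rfl | rfl⟩ := cases5 u
  · rcases adj_0 h with rfl | rfl | rfl | rfl <;>
      simp only [GG_0, GG_1, GG_2, GG_3, GG_4] <;> push_cast <;> constructor <;> linarith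
  · rcases adj_1 h with rfl | rfl <;>
      simp only [GG_0, GG_1, GG_2, GG_3, GG_4] <;> constructor <;> linarith
  · rcases adj_2 h with rfl | rfl <;>
      simp only [GG_0, GG_1, GG_2, GG_3, GG_4] <;> constructor <;> linarith
  · rcases adj_3 h with rfl | rfl <;>
      simp only [GG_0, GG_1, GG_2, GG_3, GG_4] <;> constructor <;> linarith
  · rcases adj_4 h with rfl | rfl <;>
      simp only [GG_0, GG_1, GG_2, GG_3, GG_4] <;> push_cast <;> constructor <;> linarith

lemma drift_GG {u w : ℤ} (hw : w = u ∨ Gr.Adj u w) (hm : u % 5 = 1 → w ≠ u + 1) :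
    1 / 10 * (GG w - GG u) + 341 / 400 * (av u GG - GG u) ≤ 19 / 400 - 6 / 10000 := by
  obtain ⟨k, rfl | rfl | rfl | rfl | rfl⟩ := cases5 u
  · rw [av_0]
    rcases hw with rfl | hw
    · simp only [GG_0, GG_1, GG_2, GG_3, GG_4]; push_cast; linarith
    · rcases adj_0 hw with rfl | rfl | rfl | rfl <;>
        simp only [GG_0, GG_1, GG_2, GG_3, GG_4] <;> push_cast <;> linarith
  · rw [av_1]
    rcases hw with rfl | hw
    · simp only [GG_0, GG_1, GG_2, GG_3, GG_4]; linarith
    · rcases adj_1 hw with rfl | rfl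
      · simp only [GG_0, GG_1, GG_2, GG_3, GG_4]; linarith
      · exact absurd (by ring) (hm (by omega))
  · rw [av_2]
    rcases hw with rfl | hw
    · simp only [GG_0, GG_1, GG_2, GG_3, GG_4]; linarith
    · rcases adj_2 hw with rfl | rfl <;>
        simp only [GG_0, GG_1, GG_2, GG_3, GG_4] <;> linarith
  · rw [av_3]
    rcases hw with rfl | hw
    · simp only [GG_0, GG_1, GG_2, GG_3, GG_4]; linarith
    · rcases adj_3 hw with rfl | rfl <;>
        simp only [GG_0, GG_1, GG_2, GG_3, GG_4] <;> linarith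
  · rw [av_4]
    rcases hw with rfl | hw
    · simp only [GG_0, GG_1, GG_2, GG_3, GG_4]; push_cast; linarith
    · rcases adj_4 hw with rfl | rfl <;>
        simp only [GG_0, GG_1, GG_2, GG_3, GG_4] <;> push_cast <;> linarith

/-- the robber runs to the right -/
def rob (v : ℤ) : ℤ := right v

lemma isRobber_rob : IsRobber Gr (fun _ _ v => right v) := fun _ _ v => adj_right v

noncomputable def MM (u v : ℤ) : ℝ := Real.exp ((1 / 2500) * (GG u - v / 5))

lemma MM_pos (u v : ℤ) : 0 < MM u v := Real.exp_pos _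

lemma exp_le {y : ℝ} (h : |y| ≤ 1) : Real.exp ((1 / 2500) * y) ≤ 1 + (1 / 2500) * y + (1 / 2500) ^ 2 := by
  have h1 : |(1 / 2500) * y| ≤ 1 := by
    rw [abs_mul, abs_of_pos (by norm_num : (0 : ℝ) < 1 / 2500)]; linarith
  have h2 := abs_le.mp (Real.abs_exp_sub_one_sub_id_le h1)
  have h3 : y ^ 2 ≤ 1 := by
    rw [← sq_abs]; exact pow_le_one₀ (abs_nonneg _) h
  nlinarith

lemma MM_step {u w v : ℤ} (hw : w = u ∨ Gr.Adj u w) (hm : u % 5 = 1 → w ≠ u + 1) :
    1 / 10 * MM w v + 19 / 400 * MM u (v + 5) + 341 / 400 * av u (fun u' => MM u' v) ≤ MM u v := by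
  have e : ∀ w' v' : ℤ, MM w' v' = MM u v * Real.exp ((1 / 2500) * ((GG w' - GG u) - (v' - v) / 5)) := by
    intro w' v'
    unfold MM
    rw [← Real.exp_add]
    congr 1
    ring
  have e1 : MM w v ≤ MM u v * (1 + (1 / 2500) * (GG w - GG u) + (1 / 2500) ^ 2) := by
    rw [e w v, sub_self, zero_div, sub_zero]
    refine mul_le_mul_of_nonneg_left (exp_le ?_) (MM_pos u v).le
    rcases hw with rfl | hw
    · simp
    · exact GG_lip hw
  have e2 : MM u (v + 5) ≤ MM u v * (1 + (1 / 2500) * (-1) + (1 / 2500) ^ 2) := by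
    rw [e u (v + 5)]
    have : (GG u - GG u) - (((v + 5 : ℤ) : ℝ) - v) / 5 = -1 := by push_cast; ring
    rw [this]
    exact mul_le_mul_of_nonneg_left (exp_le (by simp)) (MM_pos u v).le
  have e3 : av u (fun u' => MM u' v) ≤
      MM u v * (1 + (1 / 2500) * (av u GG - GG u) + (1 / 2500) ^ 2) := by
    have h1 : av u (fun u' => MM u' v) ≤
        av u (fun u' => MM u v * (1 + (1 / 2500) * (GG u' - GG u) + (1 / 2500) ^ 2)) := by
      refine av_mono fun n hn => ?_
      rw [e n v, sub_self, zero_div, sub_zero]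
      exact mul_le_mul_of_nonneg_left (exp_le (GG_lip hn)) (MM_pos u v).le
    refine h1.trans (le_of_eq ?_)
    unfold av; split_ifs <;> ring
  have hd := drift_GG hw hm
  have hM := MM_pos u v
  have key : 1 / 10 * (1 + (1 / 2500) * (GG w - GG u) + (1 / 2500 : ℝ) ^ 2) +
      19 / 400 * (1 + (1 / 2500) * (-1) + (1 / 2500) ^ 2) +
      341 / 400 * (1 + (1 / 2500) * (av u GG - GG u) + (1 / 2500) ^ 2) ≤ 1 := by
    nlinarith
  calc 1 / 10 * MM w v + 19 / 400 * MM u (v + 5) + 341 / 400 * av u (fun u' => MM u' v)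
      ≤ MM u v * (1 / 10 * (1 + (1 / 2500) * (GG w - GG u) + (1 / 2500 : ℝ) ^ 2) +
      19 / 400 * (1 + (1 / 2500) * (-1) + (1 / 2500) ^ 2) +
      341 / 400 * (1 + (1 / 2500) * (av u GG - GG u) + (1 / 2500) ^ 2)) := by linarith
    _ ≤ MM u v * 1 := mul_le_mul_of_nonneg_left key hM.le
    _ = _ := mul_one _

lemma MM_ge_one {u m : ℤ} (h : 5 * m ≤ u) : 1 ≤ MM u (5 * m) := by
  unfold MM
  rw [Real.one_le_exp_iff]
  have : (m : ℝ) ≤ GG u := by
    obtain ⟨k, rfl | rfl | rfl | rfl | rfl⟩ := cases5 u <;>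
      simp only [GG_0, GG_1, GG_2, GG_3, GG_4] <;>
      have hk : (m : ℝ) ≤ k := (by exact_mod_cast (show m ≤ k by omega)) <;> linarith
  push_cast
  have : (0 : ℝ) ≤ GG u - 5 * m / 5 := by linarith
  positivity

theorem mono_bound {σ : ℕ → ℤ → ℤ → ℤ} (hσ : IsCop Gr σ) (hmon : IsMonotone Gr σ) (n : ℕ) :
    ∀ s u m, 1 - SS σ (fun _ _ v => right v) n s u (5 * m) ≤ MM u (5 * m) := by
  induction n with
  | zero =>
    intro s u m
    by_cases h : u = 5 * m
    · have := MM_ge_one h.ge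
      have := SS_nonneg σ (fun _ _ v => right v) 0 s u (5 * m)
      linarith
    · simp only [SS, surv, if_neg h, sub_self]
      exact (MM_pos _ _).le
  | succ n ih =>
    intro s u m
    rcases le_or_gt (5 * m) u with h | h
    · have := MM_ge_one h
      have := SS_nonneg σ (fun _ _ v => right v) (n + 1) s u (5 * m)
      linarith
    · have hne : u ≠ 5 * m := h.ne
      rw [SS_succ _ _ _ _ _ _ hne]
      have hw := hσ s u (5 * m)
      have hm : u % 5 = 1 → σ s u (5 * m) ≠ u + 1 := by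
        intro hu hcon
        obtain ⟨k, rfl⟩ : ∃ k, u = 5 * k + 1 := ⟨u / 5, by omega⟩
        have h1 := mono_ne (k := k) (m := m) (by omega) (hmon s (5 * k + 1) (5 * m))
        exact h1 (by rw [hcon]; ring)
      have hstep := MM_step (v := 5 * m) hw hm
      have hr : right (5 * m) = 5 * (m + 1) := right_0 m
      have e1 := ih (s + 1) (σ s u (5 * m)) m
      have e2 := ih (s + 1) u (m + 1)
      have e3 : 1 - av u (fun u' => SS σ (fun _ _ v => right v) n (s + 1) u' (5 * m)) ≤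
          av u (fun u' => MM u' (5 * m)) := by
        have h1 : 1 - av u (fun u' => SS σ (fun _ _ v => right v) n (s + 1) u' (5 * m)) =
            av u (fun u' => 1 - SS σ (fun _ _ v => right v) n (s + 1) u' (5 * m)) := by
          unfold av; split_ifs <;> ring
        rw [h1]
        exact av_mono fun u' _ => ih (s + 1) u' m
      have hv : (5 * m + 5 : ℤ) = 5 * (m + 1) := by ring
      rw [hv] at hstep
      show 1 - (1 / 10 * SS σ (fun _ _ v => right v) n (s + 1) (σ s u (5 * m)) (5 * m) +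
        19 / 400 * SS σ (fun _ _ v => right v) n (s + 1) u (right (5 * m)) +
        341 / 400 * av u (fun u' => SS σ (fun _ _ v => right v) n (s + 1) u' (5 * m))) ≤ _
      rw [hr]
      linarith

theorem mono_loses {σ : ℕ → ℤ → ℤ → ℤ} (hσ : IsCop Gr σ) (hmon : IsMonotone Gr σ) :
    ¬ IsWinning Gr (1 / 10) (19 / 400) (341 / 400) 0 0 5 σ := by
  intro h
  have h1 := h _ isRobber_rob
  have h2 : ∀ n, 1 - MM 0 5 ≤ SS σ (fun _ _ v => right v) n 0 0 5 := by
    intro n
    have := mono_bound hσ hmon n 0 0 1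
    have e : (5 * 1 : ℤ) = 5 := by norm_num
    rw [e] at this
    linarith
  have h3 := ge_of_tendsto' h1 h2
  have h4 : MM 0 5 < 1 := by
    unfold MM
    rw [Real.exp_lt_one_iff]
    have : GG 0 = 0 := by
      have := GG_0 0
      simpa using this
    rw [this]
    norm_num
  linarith

end Q294.Tipsy
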