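import Pool.Agent.Q294.Tipsy.Gr

/-!
# A winning cop strategy
-/

open Filter Topology

namespace Q294.Tipsy

/-- survival probabilities for the parameters `c = 1/10, r = 19/400, t_c = 341/400, t_r = 0` -/
noncomputable abbrev SS (σ ρ : ℕ → ℤ → ℤ → ℤ) (n s : ℕ) (u v : ℤ) : ℝ :=
  surv Gr (1 / 10) (19 / 400) (341 / 400) 0 σ ρ n s u v

lemma SS_succ (σ ρ : ℕ → ℤ → ℤ → ℤ) (n s : ℕ) (u v : ℤ) (h : u ≠ v) :
    SS σ ρ (n + 1) s u v = 1 / 10 * SS σ ρ n (s + 1) (σ s u v) v +
      19 / 400 * SS σ ρ n (s + 1) u (ρ s u v) +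
      341 / 400 * av u (fun u' => SS σ ρ n (s + 1) u' v) := by
  show surv Gr (1 / 10) (19 / 400) (341 / 400) 0 σ ρ (n + 1) s u v = _
  rw [surv, if_neg h, nbrAvg_eq]
  ring

lemma SS_diag (σ ρ : ℕ → ℤ → ℤ → ℤ) (n s : ℕ) (u : ℤ) : SS σ ρ n s u u = 0 := by
  cases n <;> simp [SS, surv]

lemma av_nonneg {m : ℤ} {f : ℤ → ℝ} (h : ∀ n, 0 ≤ f n) : 0 ≤ av m f := by
  rw [← av_const m 0]
  exact av_mono fun n _ => h n

lemma av_le {m : ℤ} {f : ℤ → ℝ} {a : ℝ} (h : ∀ n, f n ≤ a) : av m f ≤ a := by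
  conv_rhs => rw [← av_const m a]
  exact av_mono fun n _ => h n

lemma SS_nonneg (σ ρ : ℕ → ℤ → ℤ → ℤ) (n : ℕ) : ∀ s u v, 0 ≤ SS σ ρ n s u v := by
  induction n with
  | zero => intro s u v; simp only [SS, surv]; split_ifs <;> norm_num
  | succ n ih =>
    intro s u v
    by_cases h : u = v
    · rw [h, SS_diag]
    · rw [SS_succ _ _ _ _ _ _ h]
      have := av_nonneg (m := u) (f := fun u' => SS σ ρ n (s + 1) u' v) (fun u' => ih _ _ _)
      have := ih (s + 1) (σ s u v) v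
      have := ih (s + 1) u (ρ s u v)
      positivity

lemma SS_le_one (σ ρ : ℕ → ℤ → ℤ → ℤ) (n : ℕ) : ∀ s u v, SS σ ρ n s u v ≤ 1 := by
  induction n with
  | zero => intro s u v; simp only [SS, surv]; split_ifs <;> norm_num
  | succ n ih =>
    intro s u v
    by_cases h : u = v
    · rw [h, SS_diag]; norm_num
    · rw [SS_succ _ _ _ _ _ _ h]
      have := av_le (m := u) (f := fun u' => SS σ ρ n (s + 1) u' v) (fun u' => ih _ _ _)
      have := ih (s + 1) (σ s u v) v
      have := ih (s + 1) u (ρ s u v)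
      linarith

lemma SS_succ_le (σ ρ : ℕ → ℤ → ℤ → ℤ) (n : ℕ) :
    ∀ s u v, SS σ ρ (n + 1) s u v ≤ SS σ ρ n s u v := by
  induction n with
  | zero =>
    intro s u v
    by_cases h : u = v
    · rw [h, SS_diag, SS_diag]
    · refine (SS_le_one _ _ _ _ _ _).trans ?_
      simp [SS, surv, h]
  | succ n ih =>
    intro s u v
    by_cases h : u = v
    · rw [h, SS_diag, SS_diag]
    · rw [SS_succ _ _ _ _ _ _ h, SS_succ _ _ _ _ _ _ h]
      have := av_mono (m := u) (f := fun u' => SS σ ρ (n + 1) (s + 1) u' v)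
        (g := fun u' => SS σ ρ n (s + 1) u' v) (fun u' _ => ih _ _ _)
      have := ih (s + 1) (σ s u v) v
      have := ih (s + 1) u (ρ s u v)
      linarith

/-- probability that the cop never wins -/
noncomputable def qq (σ ρ : ℕ → ℤ → ℤ → ℤ) (s : ℕ) (u v : ℤ) : ℝ := ⨅ n, SS σ ρ n s u v

lemma tendsto_qq (σ ρ : ℕ → ℤ → ℤ → ℤ) (s : ℕ) (u v : ℤ) :
    Tendsto (fun n => SS σ ρ n s u v) atTop (𝓝 (qq σ ρ s u v)) :=
  tendsto_atTop_ciInf (antitone_nat_of_succ_le fun n => SS_succ_le σ ρ n s u v)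
    ⟨0, by rintro _ ⟨n, rfl⟩; exact SS_nonneg σ ρ n s u v⟩

lemma tendsto_av {m : ℤ} {f : ℕ → ℤ → ℝ} {g : ℤ → ℝ}
    (h : ∀ n, Tendsto (fun k => f k n) atTop (𝓝 (g n))) :
    Tendsto (fun k => av m (f k)) atTop (𝓝 (av m g)) := by
  unfold av
  split_ifs
  · exact ((((h _).add (h _)).add (h _)).add (h _)).div_const _
  · exact ((h _).add (h _)).div_const _

lemma qq_step (σ ρ : ℕ → ℤ → ℤ → ℤ) (s : ℕ) {u v : ℤ} (h : u ≠ v) :
    qq σ ρ s u v = 1 / 10 * qq σ ρ (s + 1) (σ s u v) v +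
      19 / 400 * qq σ ρ (s + 1) u (ρ s u v) +
      341 / 400 * av u (fun u' => qq σ ρ (s + 1) u' v) := by
  refine tendsto_nhds_unique ((tendsto_qq σ ρ s u v).comp (tendsto_add_atTop_nat 1)) ?_
  have h1 : Tendsto (fun n => 1 / 10 * SS σ ρ n (s + 1) (σ s u v) v +
      19 / 400 * SS σ ρ n (s + 1) u (ρ s u v) +
      341 / 400 * av u (fun u' => SS σ ρ n (s + 1) u' v)) atTop
      (𝓝 (1 / 10 * qq σ ρ (s + 1) (σ s u v) v +
      19 / 400 * qq σ ρ (s + 1) u (ρ s u v) +
      341 / 400 * av u (fun u' => qq σ ρ (s + 1) u' v))) :=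
    (((tendsto_qq σ ρ (s + 1) (σ s u v) v).const_mul _).add
      ((tendsto_qq σ ρ (s + 1) u (ρ s u v)).const_mul _)).add
      ((tendsto_av fun u' => tendsto_qq σ ρ (s + 1) u' v).const_mul _)
  refine h1.congr fun n => ?_
  rw [← SS_succ _ _ _ _ _ _ h]
  rfl

/-- the cop runs along the chords when it is on one, towards the robber -/
def right (u : ℤ) : ℤ := if 5 ∣ u then u + 5 else u + 1

def cop (u v : ℤ) : ℤ :=
  if 5 < v - u then right u else if 5 < u - v then - right (-u) else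
    if u < v then u + 1 else if v < u then u - 1 else u

lemma adj_right (u : ℤ) : Gr.Adj u (right u) := by
  unfold right
  split_ifs with h
  · exact Or.inr ⟨h, Or.inl rfl⟩
  · exact adj_succ u

lemma cop_adj (u v : ℤ) : cop u v = u ∨ Gr.Adj u (cop u v) := by
  unfold cop
  split_ifs
  · exact Or.inr (adj_right u)
  · right
    have := adj_neg (adj_right (-u))
    rwa [neg_neg] at this
  · exact Or.inr (adj_succ u)
  · exact Or.inr (adj_pred u)
  · exact Or.inl rfl

lemma cop_neg (u v : ℤ) : cop (-u) (-v) = - cop u v := by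
  unfold cop
  rw [neg_neg]
  by_cases h1 : 5 < v - u
  · rw [if_neg (show ¬ 5 < -v - -u by omega), if_pos (show 5 < -u - -v by omega), if_pos h1]
  · by_cases h2 : 5 < u - v
    · rw [if_pos (show 5 < -v - -u by omega), if_neg h1, if_pos h2]
      ring
    · rw [if_neg (show ¬ 5 < -v - -u by omega), if_neg (show ¬ 5 < -u - -v by omega), if_neg h1,
        if_neg h2]
      split_ifs <;> omega

/-- the properties of the probability that the cop never wins which are used -/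
structure Good (q : ℕ → ℤ → ℤ → ℝ) : Prop where
  nonneg : ∀ s u v, 0 ≤ q s u v
  diag : ∀ s u, q s u u = 0
  step : ∀ s u v, u ≠ v → ∃ v', Gr.Adj v v' ∧ q s u v ≤ 1 / 10 * q (s + 1) (cop u v) v +
    19 / 400 * q (s + 1) u v' + 341 / 400 * av u (fun u' => q (s + 1) u' v)

lemma Good.neg {q : ℕ → ℤ → ℤ → ℝ} (h : Good q) : Good (fun s u v => q s (-u) (-v)) where
  nonneg := fun s u v => h.nonneg _ _ _
  diag := fun s u => h.diag _ _
  step := fun s u v huv => by
    obtain ⟨v', hv', hle⟩ := h.step s (-u) (-v) (by simpa using huv)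
    refine ⟨-v', by simpa using adj_neg hv', ?_⟩
    rw [cop_neg, av_neg] at hle
    simpa using hle

lemma good_qq {ρ : ℕ → ℤ → ℤ → ℤ} (hρ : IsRobber Gr ρ) :
    Good (qq (fun _ => cop) ρ) where
  nonneg := fun s u v => le_ciInf fun n => SS_nonneg _ _ n s u v
  diag := fun s u => by simp [qq, SS_diag]
  step := fun s u v huv => ⟨ρ s u v, hρ s u v, (qq_step _ _ s huv).le⟩

/-! ### the potential -/

/-- the potential of the cop -/
noncomputable def FF (u : ℤ) : ℝ :=
  ((u / 5 : ℤ) : ℝ) + (if u % 5 = 0 then 0 else if u % 5 = 1 then 27 / 400 else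
    if u % 5 = 2 then 86 / 400 else if u % 5 = 3 then 171 / 400 else 277 / 400)

lemma FF_0 (k : ℤ) : FF (5 * k) = k := by
  unfold FF
  rw [show (5 * k) / 5 = k by omega, show (5 * k) % 5 = 0 by omega]
  norm_num

lemma FF_1 (k : ℤ) : FF (5 * k + 1) = k + 27 / 400 := by
  unfold FF
  rw [show (5 * k + 1) / 5 = k by omega, show (5 * k + 1) % 5 = 1 by omega]
  norm_num

lemma FF_2 (k : ℤ) : FF (5 * k + 2) = k + 86 / 400 := by
  unfold FF
  rw [show (5 * k + 2) / 5 = k by omega, show (5 * k + 2) % 5 = 2 by omega]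
  norm_num

lemma FF_3 (k : ℤ) : FF (5 * k + 3) = k + 171 / 400 := by
  unfold FF
  rw [show (5 * k + 3) / 5 = k by omega, show (5 * k + 3) % 5 = 3 by omega]
  norm_num

lemma FF_4 (k : ℤ) : FF (5 * k + 4) = k + 277 / 400 := by
  unfold FF
  rw [show (5 * k + 4) / 5 = k by omega, show (5 * k + 4) % 5 = 4 by omega]
  norm_num

lemma cases5 (u : ℤ) : ∃ k, u = 5 * k ∨ u = 5 * k + 1 ∨ u = 5 * k + 2 ∨ u = 5 * k + 3 ∨
    u = 5 * k + 4 := ⟨u / 5, by omega⟩

lemma av_0 (k : ℤ) (f : ℤ → ℝ) : av (5 * k) f =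
    (f (5 * (k - 1)) + f (5 * (k - 1) + 4) + f (5 * k + 1) + f (5 * (k + 1))) / 4 := by
  unfold av
  rw [if_pos (show (5 : ℤ) ∣ 5 * k from ⟨k, rfl⟩)]
  rw [show 5 * k - 5 = 5 * (k - 1) by ring, show 5 * k - 1 = 5 * (k - 1) + 4 by ring,
    show 5 * k + 5 = 5 * (k + 1) by ring]

lemma av_1 (k : ℤ) (f : ℤ → ℝ) : av (5 * k + 1) f = (f (5 * k) + f (5 * k + 2)) / 2 := by
  unfold av
  rw [if_neg (show ¬ (5 : ℤ) ∣ 5 * k + 1 by omega)]
  rw [show 5 * k + 1 - 1 = 5 * k by ring, show 5 * k + 1 + 1 = 5 * k + 2 by ring]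

lemma av_2 (k : ℤ) (f : ℤ → ℝ) : av (5 * k + 2) f = (f (5 * k + 1) + f (5 * k + 3)) / 2 := by
  unfold av
  rw [if_neg (show ¬ (5 : ℤ) ∣ 5 * k + 2 by omega)]
  rw [show 5 * k + 2 - 1 = 5 * k + 1 by ring, show 5 * k + 2 + 1 = 5 * k + 3 by ring]

lemma av_3 (k : ℤ) (f : ℤ → ℝ) : av (5 * k + 3) f = (f (5 * k + 2) + f (5 * k + 4)) / 2 := by
  unfold av
  rw [if_neg (show ¬ (5 : ℤ) ∣ 5 * k + 3 by omega)]
  rw [show 5 * k + 3 - 1 = 5 * k + 2 by ring, show 5 * k + 3 + 1 = 5 * k + 4 by ring]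

lemma av_4 (k : ℤ) (f : ℤ → ℝ) : av (5 * k + 4) f = (f (5 * k + 3) + f (5 * (k + 1))) / 2 := by
  unfold av
  rw [if_neg (show ¬ (5 : ℤ) ∣ 5 * k + 4 by omega)]
  rw [show 5 * k + 4 - 1 = 5 * k + 3 by ring, show 5 * k + 4 + 1 = 5 * (k + 1) by ring]

lemma right_0 (k : ℤ) : right (5 * k) = 5 * (k + 1) := by
  unfold right; rw [if_pos (show (5 : ℤ) ∣ 5 * k from ⟨k, rfl⟩)]; ring

lemma right_1 (k : ℤ) : right (5 * k + 1) = 5 * k + 2 := by
  unfold right; rw [if_neg (by omega)]; ring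

lemma right_2 (k : ℤ) : right (5 * k + 2) = 5 * k + 3 := by
  unfold right; rw [if_neg (by omega)]; ring

lemma right_3 (k : ℤ) : right (5 * k + 3) = 5 * k + 4 := by
  unfold right; rw [if_neg (by omega)]; ring

lemma right_4 (k : ℤ) : right (5 * k + 4) = 5 * (k + 1) := by
  unfold right; rw [if_neg (by omega)]; ring

lemma drift_FF (u : ℤ) :
    19 / 400 + 1 / 1000 ≤ 1 / 10 * (FF (right u) - FF u) + 341 / 400 * (av u FF - FF u) := by
  obtain ⟨k, rfl | rfl | rfl | rfl | rfl⟩ := cases5 u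
  · rw [right_0, av_0, FF_0, FF_0, FF_0, FF_1, FF_4]; push_cast; linarith
  · rw [right_1, av_1, FF_0, FF_1, FF_2]; linarith
  · rw [right_2, av_2, FF_1, FF_2, FF_3]; linarith
  · rw [right_3, av_3, FF_2, FF_3, FF_4]; linarith
  · rw [right_4, av_4, FF_0, FF_3, FF_4]; push_cast; linarith

/-- `F(u) ≤ u / 5` -/
lemma FF_le (u : ℤ) : FF u ≤ u / 5 := by
  obtain ⟨k, rfl | rfl | rfl | rfl | rfl⟩ := cases5 u
  · rw [FF_0]; push_cast; linarith
  · rw [FF_1]; push_cast; linarith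
  · rw [FF_2]; push_cast; linarith
  · rw [FF_3]; push_cast; linarith
  · rw [FF_4]; push_cast; linarith

lemma adj_le {m n : ℤ} (h : Gr.Adj m n) : n ≤ m + 5 ∧ m - 5 ≤ n := by
  rw [adj_iff] at h
  omega

/-! ### the far region -/

variable {q : ℕ → ℤ → ℤ → ℝ}

lemma near (hq : Good q) {Q : ℝ} (hQ0 : 0 ≤ Q) (hQ : ∀ s u v, q s u v ≤ Q) (j : ℕ) (hj : j ≤ 5) :
    ∀ s u v, |v - u| ≤ (j : ℤ) → q s u v ≤ (1 - (1 / 10) ^ j) * Q := by
  induction j with
  | zero =>
    intro s u v h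
    have : u = v := by
      rw [abs_le] at h
      push_cast at h
      omega
    subst this
    rw [hq.diag]; simp
  | succ j ih =>
    intro s u v h
    by_cases huv : u = v
    · subst huv
      rw [hq.diag]
      have : ((1 : ℝ) / 10) ^ (j + 1) ≤ 1 := pow_le_one₀ (by norm_num) (by norm_num)
      exact mul_nonneg (by linarith) hQ0
    · obtain ⟨v', hv', hle⟩ := hq.step s u v huv
      have h1 : |v - cop u v| ≤ (j : ℤ) := by
        rw [abs_le] at h ⊢
        have hj' : (j : ℤ) + 1 ≤ 5 := by exact_mod_cast hj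
        unfold cop
        push_cast at h
        split_ifs <;> omega
      have h2 := ih (by omega) (s + 1) (cop u v) v h1
      have h3 := hQ (s + 1) u v'
      have h4 : av u (fun u' => q (s + 1) u' v) ≤ Q := av_le fun u' => hQ _ _ _
      rw [pow_succ]
      nlinarith

lemma far_step (hq : Good q) {Q' η M : ℝ} (hη : 0 ≤ η) (hM : 0 ≤ M)
    (hnear : ∀ s u v, |v - u| ≤ 5 → q s u v ≤ Q')
    (h : ∀ s u v, 5 < v - u → q s u v ≤ Q' + η * (v / 5 - FF u) + M) :
    ∀ s u v, 5 < v - u → q s u v ≤ Q' + η * (v / 5 - FF u) + M - η / 1000 := by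
  intro s u v huv
  have hne : u ≠ v := by omega
  obtain ⟨v', hv', hle⟩ := hq.step s u v hne
  have hcop : cop u v = right u := by unfold cop; rw [if_pos huv]
  rw [hcop] at hle
  -- the bound holds at all states which can be reached in one step
  have key : ∀ s' u' w, 1 ≤ w - u' → q s' u' w ≤ Q' + η * (w / 5 - FF u') + M := by
    intro s' u' w hw
    by_cases hfar : 5 < w - u'
    · exact h s' u' w hfar
    · have h1 := hnear s' u' w (by rw [abs_le]; omega)
      have h2 := FF_le u'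
      have h3 : ((u' : ℝ)) ≤ w := by exact_mod_cast (by omega : u' ≤ w)
      have h4 : 0 ≤ η * (w / 5 - FF u') := mul_nonneg hη (by linarith)
      linarith
  have hr := adj_le (adj_right u)
  have hv'' := adj_le hv'
  have e1 := key (s + 1) (right u) v (by omega)
  have e2 := key (s + 1) u v' (by omega)
  have e3 : av u (fun u' => q (s + 1) u' v) ≤
      Q' + η * (v / 5 - av u FF) + M := by
    have : av u (fun u' => q (s + 1) u' v) ≤ av u (fun u' => Q' + η * (v / 5 - FF u') + M) := by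
      refine av_mono fun n hn => key (s + 1) n v ?_
      have := adj_le hn
      omega
    refine this.trans (le_of_eq ?_)
    unfold av; split_ifs <;> ring
  have hvr : (v' : ℝ) ≤ v + 5 := by exact_mod_cast hv''.1
  have hd := drift_FF u
  have e4 : η * ((v' : ℝ) / 5 - FF u) ≤ η * (v / 5 + 1 - FF u) :=
    mul_le_mul_of_nonneg_left (by linarith) hη
  nlinarith

lemma far (hq : Good q) {Q Q' : ℝ} (hQ'0 : 0 ≤ Q') (hQ : ∀ s u v, q s u v ≤ Q)
    (hnear : ∀ s u v, |v - u| ≤ 5 → q s u v ≤ Q') :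
    ∀ s u v, 5 < v - u → q s u v ≤ Q' := by
  have key : ∀ η : ℝ, 0 < η → ∀ s u v, 5 < v - u → q s u v ≤ Q' + η * (v / 5 - FF u) := by
    intro η hη
    have hn : ∀ n : ℕ, ∀ s u v, 5 < v - u →
        q s u v ≤ Q' + η * (v / 5 - FF u) + max (Q - n * (η / 1000)) 0 := by
      intro n
      induction n with
      | zero =>
        intro s u v huv
        have h2 := FF_le u
        have h3 : ((u : ℝ)) ≤ v := by exact_mod_cast (by omega : u ≤ v)
        have h4 : 0 ≤ η * (v / 5 - FF u) := mul_nonneg hη.le (by linarith)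
        have h5 := hQ s u v
        have h6 : Q ≤ max (Q - (0 : ℕ) * (η / 1000)) 0 := by
          simp
        linarith
      | succ n ih =>
        intro s u v huv
        have h1 := far_step hq hη.le (le_max_right _ _) hnear ih s u v huv
        rcases le_total (Q - n * (η / 1000)) 0 with h | h
        · rw [max_eq_right h] at h1
          have : 0 ≤ max (Q - (n + 1 : ℕ) * (η / 1000)) 0 := le_max_right _ _
          linarith
        · rw [max_eq_left h] at h1
          have : Q - (n + 1 : ℕ) * (η / 1000) ≤ max (Q - (n + 1 : ℕ) * (η / 1000)) 0 :=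
            le_max_left _ _
          push_cast at this ⊢
          linarith
    intro s u v huv
    obtain ⟨n, hn'⟩ := exists_nat_gt (Q / (η / 1000))
    have h1 := hn n s u v huv
    rw [div_lt_iff₀ (by positivity)] at hn'
    rw [max_eq_right (by linarith)] at h1
    linarith
  intro s u v huv
  by_contra hcon
  push Not at hcon
  set f : ℝ := v / 5 - FF u with hf
  have hf0 : 0 < f := by
    have h2 := FF_le u
    have h3 : ((u : ℝ)) < v := by exact_mod_cast (by omega : u < v)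
    rw [hf]; linarith
  have h1 := key ((q s u v - Q') / (2 * f)) (by positivity) s u v huv
  rw [← hf] at h1
  have : (q s u v - Q') / (2 * f) * f = (q s u v - Q') / 2 := by field_simp
  linarith

lemma all (hq : Good q) {Q : ℝ} (hQ0 : 0 ≤ Q) (hQ : ∀ s u v, q s u v ≤ Q) :
    ∀ s u v, q s u v ≤ (1 - (1 / 10) ^ 5) * Q := by
  have hn := near hq hQ0 hQ 5 le_rfl
  have hn2 := near hq.neg hQ0 (fun s u v => hQ s (-u) (-v)) 5 le_rfl
  have hQ'0 : 0 ≤ (1 - (1 / 10 : ℝ) ^ 5) * Q := mul_nonneg (by norm_num) hQ0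
  intro s u v
  by_cases h1 : |v - u| ≤ 5
  · exact hn s u v (by exact_mod_cast h1)
  · rcases le_total u v with h | h
    · refine far hq hQ'0 hQ (fun s u v h => hn s u v (by exact_mod_cast h)) s u v ?_
      rw [abs_of_nonneg (by omega)] at h1
      omega
    · have h2 := far hq.neg hQ'0 (fun s u v => hQ s (-u) (-v))
        (fun s u v h => hn2 s u v (by exact_mod_cast h)) s (-u) (-v) ?_
      · simpa using h2
      · rw [abs_of_nonpos (by omega)] at h1
        omega

theorem good_zero (hq : Good q) (h1 : ∀ s u v, q s u v ≤ 1) (s : ℕ) (u v : ℤ) : q s u v = 0 := by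
  have key : ∀ n : ℕ, ∀ s u v, q s u v ≤ (1 - (1 / 10 : ℝ) ^ 5) ^ n := by
    intro n
    induction n with
    | zero => simpa using h1
    | succ n ih =>
      intro s u v
      have := all hq (by positivity) ih s u v
      rw [pow_succ]
      linarith
  have h2 : Tendsto (fun n : ℕ => (1 - (1 / 10 : ℝ) ^ 5) ^ n) atTop (𝓝 0) :=
    tendsto_pow_atTop_nhds_zero_of_lt_one (by norm_num) (by norm_num)
  exact le_antisymm (ge_of_tendsto' h2 fun n => key n s u v) (hq.nonneg s u v)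

theorem winning (C₀ R₀ : ℤ) :
    IsWinning Gr (1 / 10) (19 / 400) (341 / 400) 0 C₀ R₀ (fun _ => cop) := by
  intro ρ hρ
  have h1 := good_zero (good_qq hρ) (fun s u v => by
    refine (ciInf_le ⟨0, by rintro _ ⟨n, rfl⟩; exact SS_nonneg _ _ n s u v⟩ 0).trans ?_
    exact SS_le_one _ _ 0 s u v) 0 C₀ R₀
  have h2 := tendsto_qq (fun _ => cop) ρ 0 C₀ R₀
  rw [h1] at h2
  exact h2

end Q294.Tipsy
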